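import Mathlib

/-!
# Tame inertia groups in Galois extensions of bounded exponent
-/

set_option autoImplicit false

namespace Pool.Agent.H16.LA

open Ideal

section Inertia

variable {S G : Type*} [CommRing S] [IsDedekindDomain S] [Group G] [MulSemiringAction G S]

theorem inertia_smul_mem {Q : Ideal S} {σ : G} (hσ : σ ∈ Q.inertia G) {x : S} {i : ℕ}
    (hx : x ∈ Q ^ i) : σ • x ∈ Q ^ i := by
  have h1 : ∀ y ∈ Q, σ • y ∈ Q := by
    intro y hy
    have h2 : σ • y - y ∈ Q := hσ y
    have := Q.add_mem h2 hy
    simpa using this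
  let f : S →+* S := MulSemiringAction.toRingHom G S σ
  have h3 : Q ≤ Ideal.comap f Q := fun y hy => h1 y hy
  have h4 : Q ^ i ≤ Ideal.comap f (Q ^ i) := by
    refine (Ideal.pow_right_mono h3 i).trans ?_
    exact Ideal.le_comap_pow f i
  exact h4 hx

/-- The inertia group of a prime ideal not containing `m`, in a group of exponent dividing `m`, has
order dividing `m`. -/
theorem card_inertia_dvd [Finite G] [FaithfulSMul G S] (Q : Ideal S) [hQp : Q.IsPrime]
    (hQ : Q ≠ ⊥) {m : ℕ} (hm : (m : S) ∉ Q) (hG : ∀ σ : G, σ ^ m = 1) :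
    Nat.card (Q.inertia G) ∣ m := by
  classical
  have hQ1 : Q ≠ ⊤ := hQp.ne_top
  obtain ⟨π, hπ1, hπ2⟩ := exists_mem_pow_notMem_pow_succ Q hQ hQ1 1
  have hπ : π ∈ Q := by simpa using hπ1
  -- the multiplier
  have hex : ∀ σ : Q.inertia G, ∃ a : S, (σ : G) • π - a * π ∈ Q ^ 2 := by
    intro σ
    have h1 : (σ : G) • π ∈ Q ^ 1 := inertia_smul_mem σ.2 hπ1
    obtain ⟨d, e, he, hde⟩ := Ideal.exists_mul_add_mem_pow_succ hQ π _ hπ1 hπ2 h1
    refine ⟨d, ?_⟩
    rw [← hde]
    have : π * d + e - d * π = e := by ring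
    rw [this]
    exact he
  choose a ha using hex
  have huniq : ∀ x y : S, x * π - y * π ∈ Q ^ 2 → Ideal.Quotient.mk Q x = Ideal.Quotient.mk Q y := by
    intro x y h
    rw [Ideal.Quotient.mk_eq_mk_iff_sub_mem]
    have h1 : (x - y) * π ∈ Q ^ 2 := by
      have e : (x - y) * π = x * π - y * π := by ring
      rw [e]
      exact h
    exact (Ideal.IsPrime.mul_mem_pow Q h1).resolve_right hπ2
  let f : Q.inertia G →* S ⧸ Q :=
    { toFun := fun σ => Ideal.Quotient.mk Q (a σ)
      map_one' := by
        have h := ha 1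
        rw [← map_one (Ideal.Quotient.mk Q)]
        apply huniq
        have e : a 1 * π - 1 * π = -(((1 : Q.inertia G) : G) • π - a 1 * π) := by
          simp
        rw [e]
        exact (Q ^ 2).neg_mem h
      map_mul' := by
        intro σ τ
        rw [← map_mul]
        apply huniq
        -- `σ τ π ≡ σ (a τ) σ π ≡ a τ a σ π`
        have h1 := ha (σ * τ)
        have h2 : (σ : G) • ((τ : G) • π - a τ * π) ∈ Q ^ 2 := inertia_smul_mem σ.2 (ha τ)
        have h3 : ((σ : G) • a τ - a τ) * ((σ : G) • π) ∈ Q ^ 2 := by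
          rw [pow_two]
          refine Ideal.mul_mem_mul (σ.2 (a τ)) ?_
          simpa using inertia_smul_mem σ.2 hπ1
        have h4 : a τ * ((σ : G) • π - a σ * π) ∈ Q ^ 2 := (Q ^ 2).mul_mem_left _ (ha σ)
        have e : a (σ * τ) * π - a σ * a τ * π =
            -((((σ * τ : Q.inertia G) : G)) • π - a (σ * τ) * π) +
            ((σ : G) • ((τ : G) • π - a τ * π) + (((σ : G) • a τ - a τ) * ((σ : G) • π) +
              a τ * ((σ : G) • π - a σ * π))) := by
          rw [smul_sub, smul_mul', Subgroup.coe_mul, mul_smul]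
          ring
        rw [e]
        exact (Q ^ 2).add_mem ((Q ^ 2).neg_mem h1) ((Q ^ 2).add_mem h2 ((Q ^ 2).add_mem h3 h4)) }
  have hinj : Function.Injective f := by
    rw [injective_iff_map_eq_one]
    intro σ hσ
    have hσ1 : (σ : G) • π - π ∈ Q ^ 2 := by
      have h1 : Ideal.Quotient.mk Q (a σ) = Ideal.Quotient.mk Q 1 := by
        rw [map_one]
        exact hσ
      rw [Ideal.Quotient.mk_eq_mk_iff_sub_mem] at h1
      have h2 : (a σ - 1) * π ∈ Q ^ 2 := by
        rw [pow_two]
        exact Ideal.mul_mem_mul h1 hπ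
      have h3 := (Q ^ 2).add_mem (ha σ) h2
      have e : (σ : G) • π - a σ * π + (a σ - 1) * π = (σ : G) • π - π := by ring
      rwa [e] at h3
    -- powers of `π`
    have hπi : ∀ i : ℕ, (σ : G) • (π ^ i) - π ^ i ∈ Q ^ (i + 1) := by
      intro i
      induction i with
      | zero =>
        simp
      | succ i ih =>
        have h1 : ((σ : G) • (π ^ i) - π ^ i) * ((σ : G) • π) ∈ Q ^ (i + 1 + 1) := by
          rw [pow_succ Q (i + 1)]
          refine Ideal.mul_mem_mul ih ?_
          simpa using inertia_smul_mem σ.2 hπ1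
        have h2 : π ^ i * ((σ : G) • π - π) ∈ Q ^ (i + 1 + 1) := by
          have : Q ^ (i + 1 + 1) = Q ^ i * Q ^ 2 := by rw [← pow_add]
          rw [this]
          exact Ideal.mul_mem_mul (Ideal.pow_mem_pow hπ i) hσ1
        have e : (σ : G) • (π ^ (i + 1)) - π ^ (i + 1) =
            ((σ : G) • (π ^ i) - π ^ i) * ((σ : G) • π) + π ^ i * ((σ : G) • π - π) := by
          rw [pow_succ, smul_mul']
          ring
        rw [e]
        exact (Q ^ (i + 1 + 1)).add_mem h1 h2
    have hD : ∀ i : ℕ, ∀ x ∈ Q ^ i, (σ : G) • x - x ∈ Q ^ (i + 1) := by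
      intro i x hx
      have hπni : π ^ i ∉ Q ^ (i + 1) := by
        intro h
        rcases Nat.eq_zero_or_pos i with h0 | h0
        · subst h0
          apply hQ1
          rw [Ideal.eq_top_iff_one]
          simpa using h
        · -- `π ^ i ∈ Q ^ (i+1)`
          have key : ∀ k : ℕ, π ^ k ∈ Q ^ (k + 1) → False := by
            intro k
            induction k with
            | zero =>
              intro h
              apply hQ1
              rw [Ideal.eq_top_iff_one]
              simpa using h
            | succ k ih =>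
              intro h
              -- count multiplicities
              have hprime : Prime Q := Ideal.prime_of_isPrime hQ hQp
              apply hπ2
              have h5 : Q ^ (k + 1 + 1) ∣ Ideal.span {π} ^ (k + 1) := by
                rw [Ideal.span_singleton_pow, Ideal.dvd_span_singleton]
                exact h
              obtain ⟨J, hJ⟩ : Q ∣ Ideal.span {π} := Ideal.dvd_span_singleton.2 hπ
              rw [hJ, mul_pow, pow_succ Q (k + 1)] at h5
              have h6 : Q ∣ J ^ (k + 1) :=
                (mul_dvd_mul_iff_left (pow_ne_zero _ hprime.ne_zero)).1 h5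
              have h7 : Q ∣ J := hprime.dvd_of_dvd_pow h6
              have h8 : Q ^ 2 ∣ Ideal.span {π} := by
                rw [hJ, pow_two]
                exact mul_dvd_mul_left Q h7
              exact Ideal.dvd_span_singleton.1 h8
          exact key i h
      obtain ⟨d, e, he, hde⟩ := Ideal.exists_mul_add_mem_pow_succ hQ (π ^ i) x
        (Ideal.pow_mem_pow hπ i) hπni hx
      rw [← hde]
      have h1 : ((σ : G) • (π ^ i) - π ^ i) * ((σ : G) • d) ∈ Q ^ (i + 1) :=
        (Q ^ (i + 1)).mul_mem_right _ (hπi i)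
      have h2 : π ^ i * ((σ : G) • d - d) ∈ Q ^ (i + 1) := by
        rw [pow_succ]
        exact Ideal.mul_mem_mul (Ideal.pow_mem_pow hπ i) (σ.2 d)
      have h3 : (σ : G) • e ∈ Q ^ (i + 1) := inertia_smul_mem σ.2 he
      have e1 : (σ : G) • (π ^ i * d + e) - (π ^ i * d + e) =
          (((σ : G) • (π ^ i) - π ^ i) * ((σ : G) • d) + π ^ i * ((σ : G) • d - d)) +
            ((σ : G) • e - e) := by
        rw [smul_add, smul_mul']
        ring
      rw [e1]
      exact (Q ^ (i + 1)).add_mem ((Q ^ (i + 1)).add_mem h1 h2) ((Q ^ (i + 1)).sub_mem h3 he)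
    -- all powers
    have hpow : ∀ (k i : ℕ) (y : S), y ∈ Q ^ i → ((σ : G) ^ k) • y - y ∈ Q ^ (i + 1) := by
      intro k
      induction k with
      | zero => intro i y _; simp
      | succ k ih =>
        intro i y hy
        have h1 := ih i y hy
        have h2 := hD i _ (inertia_smul_mem (σ := (σ : G) ^ k) (Subgroup.pow_mem _ σ.2 k) hy)
        have e : ((σ : G) ^ (k + 1)) • y - y =
            ((σ : G) • (((σ : G) ^ k) • y) - ((σ : G) ^ k) • y) + (((σ : G) ^ k) • y - y) := by
          rw [pow_succ', mul_smul]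
          ring
        rw [e]
        exact (Q ^ (i + 1)).add_mem h2 h1
    -- `σ ^ k x - x ≡ k (σ x - x)`
    have hsum : ∀ (i : ℕ) (x : S), (σ : G) • x - x ∈ Q ^ i → ∀ k : ℕ,
        ((σ : G) ^ k) • x - x - (k : S) * ((σ : G) • x - x) ∈ Q ^ (i + 1) := by
      intro i x hx k
      induction k with
      | zero => simp
      | succ k ih =>
        have h1 := hpow k i _ hx
        have e : ((σ : G) ^ (k + 1)) • x - x - ((k + 1 : ℕ) : S) * ((σ : G) • x - x) =
            (((σ : G) ^ k) • ((σ : G) • x - x) - ((σ : G) • x - x)) +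
            (((σ : G) ^ k) • x - x - (k : S) * ((σ : G) • x - x)) := by
          rw [pow_succ, mul_smul, smul_sub]
          push_cast
          ring
        rw [e]
        exact (Q ^ (i + 1)).add_mem h1 ih
    have hall : ∀ (i : ℕ) (x : S), (σ : G) • x - x ∈ Q ^ i := by
      intro i
      induction i with
      | zero => intro x; simp
      | succ i ih =>
        intro x
        have h1 := hsum i x (ih x) m
        rw [hG, one_smul, sub_self, zero_sub] at h1
        have h2 : (m : S) * ((σ : G) • x - x) ∈ Q ^ (i + 1) := by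
          have := (Q ^ (i + 1)).neg_mem h1
          simpa using this
        exact (Ideal.IsPrime.mul_mem_pow Q h2).resolve_left hm
    have hbot : ∀ x : S, (σ : G) • x = x := by
      intro x
      have h1 : (σ : G) • x - x ∈ (⨅ i : ℕ, Q ^ i) := by
        rw [Ideal.mem_iInf]
        exact fun i => hall i x
      rw [Ideal.iInf_pow_eq_bot_of_isDomain Q hQ1] at h1
      exact sub_eq_zero.1 (by simpa using h1)
    apply Subtype.ext
    apply FaithfulSMul.eq_of_smul_eq_smul (α := S)
    intro x
    rw [hbot x, Subgroup.coe_one, one_smul]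
  haveI : IsCyclic (Q.inertia G) := isCyclic_of_injective_ringHom f hinj
  rw [← IsCyclic.exponent_eq_card]
  apply Monoid.exponent_dvd_of_forall_pow_eq_one
  intro σ
  apply Subtype.ext
  exact hG _

end Inertia

end Pool.Agent.H16.LA
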