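import Mathlib
import Pool.Agent.H16.LA.Tame

/-!
# Ramification in extensions of bounded exponent
-/

set_option autoImplicit false
set_option linter.style.haveILetI false

namespace Pool.Agent.H16.LA

open NumberField IsDedekindDomain

/-- All ramification indices of `L / K` at the primes which neither divide `m` nor lie above `S`
divide `m`. -/
def Tm (m : ℕ) {K : Type} [Field K] [NumberField K] (S : Finset (HeightOneSpectrum (𝓞 K)))
    (L : Type) [Field L] [NumberField L] [Algebra K L] : Prop :=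
  ∀ w : HeightOneSpectrum (𝓞 L), FinitePlace.mk w (m : L) = 1 → w.under (𝓞 K) ∉ S →
    w.asIdeal.ramificationIdx (𝓞 K) ∣ m

/-- `L` is contained in a finite Galois extension `N` of `K` whose Galois group has exponent
dividing `m`. -/
def ExponentField (m : ℕ) (K L : Type) [Field K] [NumberField K] [Field L] [NumberField L]
    [Algebra K L] : Prop :=
  ∃ (N : Type) (_ : Field N) (_ : NumberField N) (_ : Algebra K N) (_ : Algebra L N),
    IsScalarTower K L N ∧ IsGalois K N ∧ ∀ σ : N ≃ₐ[K] N, σ ^ m = 1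

/-- `L` is generated over `K` by elements of degree at most `d`. -/
def GeneratedByDegree (d : ℕ) (K L : Type) [Field K] [NumberField K] [Field L] [NumberField L]
    [Algebra K L] : Prop :=
  ∃ S : Set L, (∀ x ∈ S, (minpoly K x).natDegree ≤ d) ∧ IntermediateField.adjoin K S = ⊤

section

variable {K : Type} [Field K] [NumberField K] {L : Type} [Field L] [NumberField L] [Algebra K L]

theorem fv_nat_one (w : HeightOneSpectrum (𝓞 L)) (m : ℕ) :
    FinitePlace.mk w (m : L) = 1 ↔ (m : 𝓞 L) ∉ w.asIdeal := by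
  have h := FinitePlace.norm_eq_one_iff_notMem L w (m : 𝓞 L)
  rw [← h]
  have e : ((m : 𝓞 L) : L) = (m : L) := by simp
  rw [← e]
  rfl

theorem tm_of_exponent {m : ℕ} (h : ExponentField m K L) (S : Finset (HeightOneSpectrum (𝓞 K))) :
    Tm m S L := by
  obtain ⟨N, _, _, _, _, hs, hgal, hexp⟩ := h
  intro w hw _
  rw [fv_nat_one] at hw
  haveI : w.asIdeal.IsPrime := w.isPrime
  haveI : w.asIdeal.IsMaximal := w.isMaximal
  obtain ⟨Q, hQp, hQw⟩ := Ideal.exists_ideal_over_prime_of_isIntegral_of_isDomain (S := 𝓞 N)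
    w.asIdeal (by simp)
  haveI : Q.LiesOver w.asIdeal := ⟨hQw.symm⟩
  have hQbot : Q ≠ ⊥ := Ideal.ne_bot_of_liesOver_of_ne_bot w.ne_bot Q
  have hmQ : (m : 𝓞 N) ∉ Q := by
    intro h1
    apply hw
    rw [← hQw, Ideal.mem_comap, map_natCast]
    exact h1
  haveI : FaithfulSMul (N ≃ₐ[K] N) (𝓞 N) := IsGaloisGroup.faithful (𝓞 K)
  have h1 := card_inertia_dvd (G := N ≃ₐ[K] N) Q hQbot hmQ hexp
  set p : Ideal (𝓞 K) := Q.under (𝓞 K) with hp
  haveI : p.IsPrime := inferInstance
  haveI : Q.LiesOver p := ⟨rfl⟩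
  have hp0 : p ≠ ⊥ := by
    rw [hp]
    exact mt (Ideal.eq_bot_of_comap_eq_bot) hQbot
  haveI : p.IsMaximal := Ideal.IsPrime.isMaximal inferInstance hp0
  haveI : PerfectField p.ResidueField := by
    haveI : Finite (𝓞 K ⧸ p) := Ideal.finiteQuotientOfFreeOfNeBot p hp0
    haveI : Finite p.ResidueField := by
      exact Finite.of_surjective _ (Ideal.bijective_algebraMap_quotient_residueField p).surjective
    infer_instance
  have h2 := Ideal.card_inertia_eq_ramificationIdxIn (G := N ≃ₐ[K] N) p Q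
  rw [h2, Ideal.ramificationIdxIn_eq_ramificationIdx p Q (N ≃ₐ[K] N)] at h1
  refine dvd_trans ?_ h1
  exact Ideal.ramificationIdx_below_dvd w.asIdeal Q
end

end Pool.Agent.H16.LA
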