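import Mathlib
import Pool.Agent.H16.LA.Exp

/-!
# Fields generated by elements of bounded degree have bounded exponent
-/

set_option autoImplicit false
set_option linter.style.haveILetI false

namespace Pool.Agent.H16.LA

open NumberField IsDedekindDomain

section

variable {K : Type} [Field K] [NumberField K]

/-- a root of a polynomial of degree at most `d` is fixed by the `d!`-th powers of automorphisms -/
theorem pow_factorial_fix {N : Type} [Field N] [Algebra K N] [FiniteDimensional K N]
    {d : ℕ} (x : N) (hx : (minpoly K x).natDegree ≤ d) (σ : N ≃ₐ[K] N) :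
    (σ ^ d.factorial) x = x := by
  classical
  have hint : IsIntegral K x := Algebra.IsIntegral.isIntegral x
  have hne : minpoly K x ≠ 0 := minpoly.ne_zero hint
  set f : N → N := fun y => σ y with hf
  have hit : ∀ k : ℕ, ∀ y : N, f^[k] y = (σ ^ k) y := by
    intro k
    induction k with
    | zero => intro y; simp
    | succ k ih =>
      intro y
      rw [Function.iterate_succ_apply', ih, pow_succ', AlgEquiv.mul_apply]
  have hroot : ∀ k : ℕ, f^[k] x ∈ (minpoly K x).rootSet N := by
    intro k
    rw [hit, Polynomial.mem_rootSet]
    refine ⟨hne, ?_⟩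
    have h1 : Polynomial.aeval ((σ ^ k) x) (minpoly K x) =
        (σ ^ k) (Polynomial.aeval x (minpoly K x)) := by
      rw [← Polynomial.aeval_algHom_apply]
    rw [h1, minpoly.aeval, map_zero]
  haveI : Fintype (N ≃ₐ[K] N) := Fintype.ofFinite _
  have hper : x ∈ Function.periodicPts f := by
    refine ⟨orderOf σ, orderOf_pos σ, ?_⟩
    change f^[orderOf σ] x = x
    rw [hit, pow_orderOf_eq_one]
    rfl
  have hpos := Function.minimalPeriod_pos_of_mem_periodicPts hper
  have hle : Function.minimalPeriod f x ≤ d := by
    have h1 : (Finset.range (Function.minimalPeriod f x)).card ≤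
        ((minpoly K x).rootSet N).toFinset.card := by
      refine Finset.card_le_card_of_injOn (fun k => f^[k] x) ?_ ?_
      · intro k _
        rw [Finset.mem_coe, Set.mem_toFinset]
        exact hroot k
      · intro a ha b hb hab
        rw [Finset.mem_coe, Finset.mem_range] at ha hb
        exact Function.iterate_injOn_Iio_minimalPeriod ha hb hab
    rw [Finset.card_range] at h1
    refine h1.trans (le_trans ?_ hx)
    rw [← Set.ncard_eq_toFinset_card']
    exact Polynomial.ncard_rootSet_le (minpoly K x) N
  have hdvd : Function.minimalPeriod f x ∣ d.factorial := Nat.dvd_factorial hpos hle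
  have h2 := Function.isPeriodicPt_iff_minimalPeriod_dvd.2 hdvd
  have h3 : f^[d.factorial] x = x := h2
  rwa [hit] at h3

variable {L : Type} [Field L] [NumberField L] [Algebra K L]

theorem exponent_of_generated {d : ℕ} (h : GeneratedByDegree d K L) :
    ExponentField d.factorial K L := by
  classical
  obtain ⟨S, hS, hadj⟩ := h
  set m := d.factorial with hm
  let Ω := AlgebraicClosure L
  let N0 := IntermediateField.normalClosure K L Ω
  haveI : FiniteDimensional K N0 := inferInstance
  haveI : IsGalois K N0 := inferInstance
  let H : Subgroup (N0 ≃ₐ[K] N0) := Subgroup.closure (Set.range fun σ => σ ^ m)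
  haveI hHn : H.Normal := by
    constructor
    intro n hn g
    induction hn using Subgroup.closure_induction with
    | mem x hx =>
      obtain ⟨σ, rfl⟩ := hx
      have e : g * σ ^ m * g⁻¹ = (g * σ * g⁻¹) ^ m := (conj_pow).symm
      rw [e]
      exact Subgroup.subset_closure ⟨_, rfl⟩
    | one => simp [H.one_mem]
    | mul x y _ _ hx hy =>
      have e : g * (x * y) * g⁻¹ = (g * x * g⁻¹) * (g * y * g⁻¹) := by group
      rw [e]
      exact H.mul_mem hx hy
    | inv x _ hx =>
      have e : g * x⁻¹ * g⁻¹ = (g * x * g⁻¹)⁻¹ := by group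
      rw [e]
      exact H.inv_mem hx
  let F : IntermediateField K N0 := IntermediateField.fixedField H
  haveI : IsGalois K F := IsGalois.of_fixedField_normal_subgroup H
  have hFfix : ∀ x : N0, (∀ σ : N0 ≃ₐ[K] N0, (σ ^ m) x = x) → x ∈ F := by
    intro x hx
    change x ∈ IntermediateField.fixedField H
    rw [IntermediateField.mem_fixedField_iff]
    intro g hg
    induction hg using Subgroup.closure_induction with
    | mem g hg =>
      obtain ⟨σ, rfl⟩ := hg
      exact hx σ
    | one => rfl
    | mul a b _ _ ha hb =>
      rw [AlgEquiv.mul_apply, hb, ha]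
    | inv a _ ha =>
      have h1 : a⁻¹ (a x) = x := by
        rw [← AlgEquiv.mul_apply, inv_mul_cancel]
        rfl
      rw [ha] at h1
      exact h1
  let f0 : L →ₐ[K] N0 := IsScalarTower.toAlgHom K L N0
  have hLF : ∀ y : L, f0 y ∈ F := by
    have h1 : IntermediateField.adjoin K S ≤ F.comap f0 := by
      rw [IntermediateField.adjoin_le_iff]
      intro x hx
      change f0 x ∈ F
      apply hFfix
      intro σ
      apply pow_factorial_fix
      have h2 : minpoly K (f0 x) = minpoly K x := minpoly.algHom_eq f0 f0.injective x
      rw [h2]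
      exact hS x hx
    rw [hadj] at h1
    intro y
    exact h1 (IntermediateField.mem_top (x := y))
  let g : L →ₐ[K] F := AlgHom.codRestrict f0 F.toSubalgebra hLF
  letI : Algebra L F := g.toRingHom.toAlgebra
  haveI : IsScalarTower K L F := IsScalarTower.of_algebraMap_eq' g.comp_algebraMap.symm
  haveI : FiniteDimensional K F := inferInstance
  haveI : NumberField F := NumberField.of_module_finite K F
  refine ⟨F, inferInstance, inferInstance, inferInstance, inferInstance, inferInstance,
    inferInstance, ?_⟩
  intro τ
  obtain ⟨σ, hσ⟩ := AlgEquiv.restrictNormalHom_surjective (F := K) (K₁ := F) N0 τ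
  rw [← hσ, ← map_pow]
  ext x
  have h1 : ((AlgEquiv.restrictNormalHom (F := K) (K₁ := N0) F (σ ^ m)) x : N0) = (σ ^ m) (x : N0) :=
    AlgEquiv.restrictNormal_commutes (σ ^ m) F x
  rw [h1]
  have h2 := x.2
  have h3 : (x : N0) ∈ IntermediateField.fixedField H := h2
  rw [IntermediateField.mem_fixedField_iff] at h3
  have h4 := h3 _ (Subgroup.subset_closure ⟨σ, rfl⟩)
  exact congrArg (fun z : N0 => (z : Ω)) h4
end

end Pool.Agent.H16.LA
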