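import Mathlib
import Pool.Agent.H16.LA.S8.Helper259.HtExt

/-! Finite places in an extension of number fields (extracted from the starting library). -/

set_option autoImplicit false

open Height NumberField Module Finset IsDedekindDomain
open scoped NNReal

namespace Pool.Agent.Y725.LS

theorem val_eq {F : Type*} [Field F] [NumberField F] (u : FinitePlace F) (z : F) :
    u.val z = WithZeroMulInt.toNNReal (HeightOneSpectrum.absNorm_ne_zero u.maximalIdeal)
      (u.maximalIdeal.valuation F z) := by
  rw [← FinitePlace.norm_embedding', FinitePlace.norm_embedding_eq]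
  rfl

section

variable {K : Type*} [Field K] [NumberField K] {L : Type*} [Field L] [NumberField L] [Algebra K L]

variable (K) in
/-- the place below -/
noncomputable def below (w : FinitePlace L) : FinitePlace K :=
  FinitePlace.mk (w.maximalIdeal.under (𝓞 K))

variable (K) in
theorem below_ideal (w : FinitePlace L) : (below K w).maximalIdeal = w.maximalIdeal.under (𝓞 K) :=
  FinitePlace.maximalIdeal_mk _

variable (K) in
instance (w : FinitePlace L) : w.maximalIdeal.asIdeal.LiesOver (below K w).maximalIdeal.asIdeal := by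
  rw [below_ideal]
  exact ⟨rfl⟩

variable (K) in
/-- the local degree -/
noncomputable def ldeg (w : FinitePlace L) : ℕ :=
  (below K w).maximalIdeal.asIdeal.ramificationIdx' w.maximalIdeal.asIdeal *
    (below K w).maximalIdeal.asIdeal.inertiaDeg' w.maximalIdeal.asIdeal

variable (K) in
theorem ram_pos (w : FinitePlace L) :
    0 < (below K w).maximalIdeal.asIdeal.ramificationIdx' w.maximalIdeal.asIdeal :=
  Nat.pos_of_ne_zero (Ideal.IsDedekindDomain.ramificationIdx'_ne_zero_of_liesOver _
    (below K w).maximalIdeal.ne_bot)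

variable (K) in
theorem inert_pos (w : FinitePlace L) :
    0 < (below K w).maximalIdeal.asIdeal.inertiaDeg' w.maximalIdeal.asIdeal := by
  haveI : (below K w).maximalIdeal.asIdeal.IsMaximal := (below K w).maximalIdeal.isMaximal
  exact Nat.pos_of_ne_zero (Ideal.inertiaDeg'_ne_zero _ _)

variable (K) in
theorem ldeg_pos (w : FinitePlace L) : 0 < ldeg K w := Nat.mul_pos (ram_pos K w) (inert_pos K w)

variable (K) in
theorem Nm_below (w : FinitePlace L) : Ideal.absNorm w.maximalIdeal.asIdeal =
    Ideal.absNorm (below K w).maximalIdeal.asIdeal ^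
    ((below K w).maximalIdeal.asIdeal.inertiaDeg' w.maximalIdeal.asIdeal) :=
  Ideal.absNorm_eq_pow_inertiaDeg'_of_liesOver _ _ (below K w).maximalIdeal.isPrime
    (below K w).maximalIdeal.ne_bot

theorem ext_apply (w : FinitePlace L) (x : K) :
    w.val (algebraMap K L x) = (below K w).val x ^ ldeg K w := by
  by_cases hx : x = 0
  · rw [hx, map_zero, map_zero, map_zero, zero_pow (ldeg_pos K w).ne']
  rw [val_eq, val_eq, ← HeightOneSpectrum.valuation_liesOver L (below K w).maximalIdeal
    w.maximalIdeal, map_pow]
  set m := (below K w).maximalIdeal.valuation K x with hm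
  have hm0 : m ≠ 0 := (Valuation.ne_zero_iff _).2 hx
  rw [WithZeroMulInt.toNNReal_neg_apply _ hm0, WithZeroMulInt.toNNReal_neg_apply _ hm0]
  have h2 : ((Ideal.absNorm w.maximalIdeal.asIdeal : ℕ) : ℝ≥0) =
      ((Ideal.absNorm (below K w).maximalIdeal.asIdeal : ℕ) : ℝ≥0) ^
      ((below K w).maximalIdeal.asIdeal.inertiaDeg' w.maximalIdeal.asIdeal) := by
    have := Nm_below K w
    exact_mod_cast this
  rw [h2]
  unfold ldeg
  push_cast
  rw [← zpow_natCast, ← zpow_natCast, ← zpow_natCast, ← zpow_mul, ← zpow_mul, ← zpow_mul]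
  congr 1
  push_cast
  ring

theorem ideal_inj : Function.Injective fun w : FinitePlace L => w.maximalIdeal.asIdeal := by
  intro w₁ w₂ h12
  apply FinitePlace.maximalIdeal_injective
  exact HeightOneSpectrum.ext h12

variable (K) in
theorem mem_over (w : FinitePlace L) : w.maximalIdeal.asIdeal ∈
    IsDedekindDomain.primesOverFinset (below K w).maximalIdeal.asIdeal (𝓞 L) := by
  haveI : (below K w).maximalIdeal.asIdeal.IsMaximal := (below K w).maximalIdeal.isMaximal
  exact (IsDedekindDomain.mem_primesOverFinset_iff (below K w).maximalIdeal.ne_bot _).2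
    ⟨w.maximalIdeal.isPrime, inferInstance⟩

/-- the fundamental identity -/
theorem sum_ldeg (v : FinitePlace K) (R : Finset (FinitePlace L)) (hR : ∀ w ∈ R, below K w = v) :
    ∑ w ∈ R, ldeg K w ≤ finrank K L := by
  classical
  haveI : v.maximalIdeal.asIdeal.IsMaximal := v.maximalIdeal.isMaximal
  have h := Ideal.sum_ramification_inertia (R := 𝓞 K) (𝓞 L) K L (p := v.maximalIdeal.asIdeal)
    v.maximalIdeal.ne_bot
  rw [← h]
  have h1 : ∑ w ∈ R, ldeg K w = ∑ P ∈ R.image (fun w : FinitePlace L => w.maximalIdeal.asIdeal),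
      v.maximalIdeal.asIdeal.ramificationIdx' P * v.maximalIdeal.asIdeal.inertiaDeg' P := by
    rw [Finset.sum_image (fun a _ b _ hab => ideal_inj hab)]
    refine Finset.sum_congr rfl fun w hw => ?_
    rw [ldeg, hR w hw]
  rw [h1]
  refine Finset.sum_le_sum_of_subset ?_
  intro P hP
  obtain ⟨w, hw, rfl⟩ := Finset.mem_image.1 hP
  have := mem_over K w
  rwa [hR w hw] at this

theorem logHeight₁_pair {F : Type*} [Field F] [NumberField F] (x : F) :
    logHeight₁ x = logHeight ![x, 1] := by
  rw [logHeight₁_eq_log_mulHeight₁, logHeight_eq_log_mulHeight, mulHeight₁_eq_mulHeight]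

theorem logHeight₁_ext (j : K) :
    logHeight₁ (algebraMap K L j) = finrank K L * logHeight₁ j := by
  rw [logHeight₁_pair, logHeight₁_pair,
    ← Pool.Agent.Helper259.HtExt.logHeight_ext (L := L)]
  congr 1
  funext i
  fin_cases i
  · rfl
  · exact (map_one _).symm

end

end Pool.Agent.Y725.LS
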