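import Mathlib
import Pool.Agent.H16.LA.R39.Q237.LT.AddExt
import Pool.Agent.H16.LA.R39.Q237.LS.Tot

/-!
# The theorems with the additive places
-/

set_option autoImplicit false
set_option linter.unusedSectionVars false

namespace Pool.Agent.Q237.LT

open NumberField IsDedekindDomain Finset Pool.Agent.H691R3 Pool.Agent.W223.AK
open Pool.Agent.TH942 Pool.Agent.TH910.LS Pool.Agent.Y733.LS Pool.Agent.Y733.UD WeierstrassCurve
open Pool.Agent.Q237.LS

/-- **The theorem for a single invariant over a number field of any degree.** -/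
theorem LTU_of {L : Type} [Field L] [NumberField L] [DecidableEq L] {j : L} (h0 : j ≠ 0)
    (h1 : j ≠ 1728) {θ : ℝ} (hθ : 0 < θ) (hθ1 : θ ≤ 1) (hf : θ * ht j ≤ fa j + fu j)
    (hht : Module.finrank ℚ L * c8 ≤ θ ^ 2 / 144 * ht j) :
    Pool.Agent.Q237.LS.LT (θ ^ 6 / 290000) (28 / θ ^ 2) j := by
  intro a b hD hj
  have ha : a ≠ 0 := by
    rintro rfl
    apply h0
    rw [← hj]
    unfold jj
    simp
  have hb : b ≠ 0 := by
    rintro rfl
    apply h1
    have h3 := jj_sub a 0 hD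
    rw [hj] at h3
    have h4 : j - 1728 = 0 := by rw [h3]; simp
    linear_combination h4
  subst hj
  have hU : ∀ v ∈ wu (jj a b), AddJ (jj a b) v := fun v hv => of_mem_wu hv
  set j := jj a b with hj
  have hn : (0 : ℝ) < Module.finrank ℚ L := by exact_mod_cast Module.finrank_pos
  set n : ℝ := (Module.finrank ℚ L : ℝ) with hndef
  have hc7 := c7_pos
  have hC4 := C4_nonneg
  have hht2 : n * c7 ≤ θ ^ 2 / 144 * ht j := by
    refine le_trans ?_ hht
    apply mul_le_mul_of_nonneg_left _ hn.le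
    unfold c8
    linarith
  have hθ2 : 0 < θ ^ 2 := by positivity
  have hθ21 : θ ^ 2 ≤ 1 := pow_le_one₀ hθ.le hθ1
  have hhtpos : 0 < ht j := by
    have h3 : 0 < n * c8 := mul_pos hn c8_pos
    have h4 : 0 < θ ^ 2 / 144 * ht j := lt_of_lt_of_le h3 hht
    by_contra hcon
    push Not at hcon
    have : θ ^ 2 / 144 * ht j ≤ 0 := mul_nonpos_of_nonneg_of_nonpos (by positivity) hcon
    linarith
  have hht3 : n * (1 + C4) ≤ ht j := by
    have h3 : n * (1 + C4) ≤ n * c8 := by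
      apply mul_le_mul_of_nonneg_left _ hn.le
      unfold c8
      linarith
    nlinarith
  -- the number of points
  set N : ℕ := ⌈6 / θ ^ 2⌉₊ with hN
  have hN1 : 6 / θ ^ 2 ≤ N := Nat.le_ceil _
  have hN2 : (N : ℝ) < 6 / θ ^ 2 + 1 := Nat.ceil_lt_add_one (by positivity)
  have h6 : 6 ≤ θ ^ 2 * N := by
    rw [div_le_iff₀ hθ2] at hN1
    linarith
  have hN3 : (N : ℝ) * θ ^ 2 ≤ 7 := by
    have h3 : (N : ℝ) * θ ^ 2 ≤ (6 / θ ^ 2 + 1) * θ ^ 2 :=
      mul_le_mul_of_nonneg_right hN2.le hθ2.le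
    have h4 : (6 / θ ^ 2 + 1) * θ ^ 2 = 6 + θ ^ 2 := by field_simp
    linarith
  have hN16 : (6 : ℝ) ≤ N := by nlinarith
  have hNge : 6 ≤ N := by exact_mod_cast hN16
  -- the bound for one point
  have key : ∀ (T : Finset (Pr L)), (∀ v ∈ T, GainAt a b v) → ∀ P : SPt a b,
      (∀ m : ℕ, 1 ≤ m → m ≤ 4 * N → m • P ≠ 0) →
      θ ^ 2 / 288 * ht j + (∑ v ∈ T, Real.log (Nv v)) / 4 ≤ 4 * (N : ℝ) ^ 2 * chat P :=
    fun T hT P hP => mainU ha hb hD hθ hθ1 (wu j) hU hf hht2 N hNge h6 T hT P hP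
  have hB4 : ((4 * N : ℕ) : ℝ) ≤ 28 / θ ^ 2 := by
    rw [le_div_iff₀ hθ2]
    push_cast
    linarith
  constructor
  · intro Q hQ
    refine le_trans ?_ hB4
    by_contra hcon
    push Not at hcon
    have hcon' : 4 * N < addOrderOf Q := by exact_mod_cast hcon
    have h3 := key ∅ (by simp) Q (fun m hm1 hm2 h0 => by
      have := addOrderOf_le_of_nsmul_eq_zero (by omega) h0
      omega)
    rw [tors_zero (a := a) (b := b) hD hQ, Finset.sum_empty] at h3
    have : 0 < θ ^ 2 / 288 * ht j := by positivity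
    linarith
  · intro S hS g M hM P hP
    obtain ⟨Q, _, hQ, hQ'⟩ := reduction (a := a) (b := b) hD M hM P hP
    refine le_trans ?_ hQ'
    obtain ⟨T, hT, hTS⟩ := bad_sum ha hb hD S hS
    have hQm : ∀ m : ℕ, 1 ≤ m → m ≤ 4 * N → m • Q ≠ 0 := by
      intro m hm1 _ h0
      exact hQ (isOfFinAddOrder_iff_nsmul_eq_zero.2 ⟨m, hm1, h0⟩)
    have h3 := key T hT Q hQm
    have hT0 : 0 ≤ ∑ v ∈ T, Real.log (Nv v) := Finset.sum_nonneg fun v _ => (log_Nv_pos v).le
    have hC4' : Real.log 6 + Real.log 1729 = C4 := rfl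
    rw [hC4', ← hj, ← hndef] at hTS
    generalize (∑ v ∈ T, Real.log (Nv v)) = sT at h3 hT0 hTS
    generalize (∑ v ∈ S, Real.log (Nv v)) = sS at hTS ⊢
    have h4 : n + ht j + sS ≤ 5 * ht j + sT := by linarith
    have hN0 : (0 : ℝ) < N := by linarith
    have h5 : 0 ≤ 5 * ht j + sT := by positivity
    have hcpos : (0 : ℝ) ≤ θ ^ 6 / 290000 := by positivity
    calc θ ^ 6 / 290000 * (n + ht j + sS) ≤ θ ^ 6 / 290000 * (5 * ht j + sT) :=
          mul_le_mul_of_nonneg_left h4 hcpos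
      _ ≤ (θ ^ 2 / 288 * ht j + sT / 4) / (4 * (N : ℝ) ^ 2) := by
          rw [le_div_iff₀ (by positivity)]
          have h5 : ((N : ℝ) * θ ^ 2) ^ 2 ≤ 7 ^ 2 := pow_le_pow_left₀ (by positivity) hN3 2
          have h6 : θ ^ 6 / 290000 * (5 * ht j + sT) * (4 * (N : ℝ) ^ 2) =
              θ ^ 2 * (5 * ht j + sT) * (4 / 290000) * ((N : ℝ) * θ ^ 2) ^ 2 := by ring
          rw [h6]
          have h7 : θ ^ 2 * (5 * ht j + sT) * (4 / 290000) * ((N : ℝ) * θ ^ 2) ^ 2 ≤
              θ ^ 2 * (5 * ht j + sT) * (4 / 290000) * 7 ^ 2 :=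
            mul_le_mul_of_nonneg_left h5 (by positivity)
          refine h7.trans ?_
          have h8 : θ ^ 2 * sT ≤ 1 * sT := mul_le_mul_of_nonneg_right hθ21 hT0
          have h9 : 0 ≤ θ ^ 2 * ht j := by positivity
          nlinarith
      _ ≤ chat Q := by
          rw [div_le_iff₀ (by positivity)]
          linarith

/-- **from the logarithmic count to the count** -/
theorem countsU (R : Prp) {β ε A1 : ℝ} (hε : 0 < ε)
    (h1 : ∀ (K : Type) [Field K] [NumberField K] (B : ℝ), 1 ≤ B → ((ExcS R K B).ncard : ℝ) ≤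
      Real.exp (Module.finrank ℚ K * (A1 + (β + ε / 2) * Real.log B))) :
    ∃ C : ℝ, 0 < C ∧ ∀ (K : Type) [Field K] [NumberField K] (B : ℝ), 1 ≤ B →
      (InvS K B).Finite ∧
      ((ExcS R K B).ncard : ℝ) ≤ (C * B ^ (β + ε)) ^ Module.finrank ℚ K := by
  refine ⟨Real.exp A1, Real.exp_pos _, ?_⟩
  intro K _ _ B hB
  have hB0 : 0 < B := by linarith
  have hlB : 0 ≤ Real.log B := Real.log_nonneg hB
  have hn := n_pos (K := K)
  refine ⟨fin_InvS B, ?_⟩
  refine (h1 K B hB).trans ?_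
  rw [pow_form2 hB0]
  apply Real.exp_le_exp.2
  apply mul_le_mul_of_nonneg_left _ hn.le
  nlinarith

end Pool.Agent.Q237.LT
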