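import Mathlib
import Pool.Agent.H16.LA.Gen
import Pool.Agent.H16.LA.LTU

/-!
# The lower bound over all extensions with bounded ramification indices
-/

set_option autoImplicit false
set_option linter.unusedSectionVars false
set_option linter.style.haveILetI false

namespace Pool.Agent.H16.LA

open NumberField IsDedekindDomain Finset Pool.Agent.H691R3 Pool.Agent.W223.AK
open Pool.Agent.TH942 Pool.Agent.TH910.LS Pool.Agent.Y733.LS Pool.Agent.Y733.UD
open Pool.Agent.Q237.LS Pool.Agent.Q237.LT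
open Pool.Agent.Y725.LS (below ldeg ldeg_pos ext_apply mem_over ideal_inj)
open Pool.Agent.W222.UABC (cS_empty)

section Defs

variable {K : Type} [Field K] [NumberField K]

/-- additive reduction which survives in extensions with ramification index dividing `m` -/
def AddM (m : ℕ) (j : K) (v : Pr K) : Prop :=
  (¬ 3 ∣ m ∧ ∀ k : ℤ, fv v j ≠ Nv v ^ (3 * k)) ∨
    (¬ 2 ∣ m ∧ ∀ k : ℤ, fv v (j - 1728) ≠ Nv v ^ (2 * k))

open Classical in
/-- the poles prime to `m` -/
noncomputable def am (m : ℕ) (j : K) : Finset (Pr K) := (wa j).filter fun v => fv v (m : K) = 1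

open Classical in
/-- the additive places prime to `m` -/
noncomputable def um (m : ℕ) (j : K) : Finset (Pr K) :=
  (wu j).filter fun v => fv v (m : K) = 1 ∧ AddM m j v

/-- the truncated counting function -/
noncomputable def fm (m : ℕ) (j : K) : ℝ :=
  ∑ v ∈ am m j, Real.log (Nv v) + ∑ v ∈ um m j, Real.log (Nv v)

theorem mem_am {m : ℕ} {j : K} {v : Pr K} : v ∈ am m j ↔ 1 < fv v j ∧ fv v (m : K) = 1 := by
  unfold am
  rw [Finset.mem_filter, mem_wa]

open Classical in
theorem mem_um {m : ℕ} {j : K} (h0 : j ≠ 0) (h1 : j ≠ 1728) {v : Pr K} : v ∈ um m j ↔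
    (fv v 2 = 1 ∧ fv v 3 = 1 ∧ fv v j ≤ 1) ∧ fv v (m : K) = 1 ∧ AddM m j v := by
  unfold um
  rw [Finset.mem_filter, mem_wu h0 h1]
  constructor
  · rintro ⟨⟨h2, h3, h4, _⟩, h5, h6⟩
    exact ⟨⟨h2, h3, h4⟩, h5, h6⟩
  · rintro ⟨⟨h2, h3, h4⟩, h5, h6⟩
    refine ⟨⟨h2, h3, h4, ?_⟩, h5, h6⟩
    rcases h6 with h6 | h6
    · exact Or.inl h6.2
    · exact Or.inr h6.2

open Classical in
theorem am_um (m : ℕ) (j : K) : Disjoint (am m j) (um m j) := by
  rw [Finset.disjoint_left]
  intro v hv hv'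
  unfold am at hv
  unfold um at hv'
  exact Finset.disjoint_left.1 (wa_wu j) (Finset.mem_filter.1 hv).1 (Finset.mem_filter.1 hv').1

theorem fm_eq (m : ℕ) (j : K) [DecidableEq (Pr K)] :
    fm m j = ∑ v ∈ am m j ∪ um m j, Real.log (Nv v) := by
  unfold fm
  rw [Finset.sum_union (am_um m j)]

end Defs

section Ext

variable {K : Type} [Field K] [NumberField K] {L : Type} [Field L] [NumberField L] [Algebra K L]

theorem ee_eq (w : Pr L) : ee K w = w.asIdeal.ramificationIdx (𝓞 K) := by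
  unfold ee
  haveI : w.asIdeal.IsPrime := w.isPrime
  haveI : w.asIdeal.LiesOver (w.under (𝓞 K)).asIdeal := ⟨rfl⟩
  exact Ideal.ramificationIdx'_eq_ramificationIdx _ _ (w.under (𝓞 K)).ne_bot

theorem ee_dvd {m : ℕ} {S : Finset (Pr K)} (hT : Tm m S L) (w : Pr L)
    (hw : fv (w.under (𝓞 K)) (m : K) = 1) (hwS : w.under (𝓞 K) ∉ S) : ee K w ∣ m := by
  rw [ee_eq]
  have h1 := (fv_ext_one w (m : K)).2 hw
  rw [map_natCast] at h1
  exact hT w h1 hwS

/-- the fundamental identity -/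
theorem sum_ldeg_full (v : Pr K) (W : Finset (Pr L)) (hW : ∀ w, w ∈ W ↔ w.under (𝓞 K) = v) :
    ∑ w ∈ W, ldeg K (FinitePlace.mk w) = Module.finrank K L := by
  classical
  haveI : v.asIdeal.IsMaximal := v.isMaximal
  have h := Ideal.sum_ramification_inertia (R := 𝓞 K) (𝓞 L) K L (p := v.asIdeal) v.ne_bot
  rw [← h]
  have hinj : Set.InjOn (fun w : Pr L => w.asIdeal) (W : Finset (Pr L)) :=
    fun a _ b _ hab => HeightOneSpectrum.ext hab
  have h1 : ∑ w ∈ W, ldeg K (FinitePlace.mk w) =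
      ∑ P ∈ W.image (fun w : Pr L => w.asIdeal),
        v.asIdeal.ramificationIdx' P * v.asIdeal.inertiaDeg' P := by
    rw [Finset.sum_image hinj]
    refine Finset.sum_congr rfl fun w hw => ?_
    unfold Pool.Agent.Y725.LS.ldeg Pool.Agent.Y725.LS.below
    rw [FinitePlace.maximalIdeal_mk, FinitePlace.maximalIdeal_mk, (hW w).1 hw]
  rw [h1]
  refine Finset.sum_congr ?_ fun _ _ => rfl
  ext P
  rw [Finset.mem_image, IsDedekindDomain.mem_primesOverFinset_iff v.ne_bot]
  constructor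
  · rintro ⟨w, hw, rfl⟩
    have h2 := (hW w).1 hw
    refine ⟨w.isPrime, ⟨?_⟩⟩
    rw [← h2]
    rfl
  · rintro ⟨hP, hPv⟩
    have hbot : P ≠ ⊥ := by
      haveI : P.LiesOver v.asIdeal := hPv
      exact Ideal.ne_bot_of_liesOver_of_ne_bot v.ne_bot P
    refine ⟨⟨P, hP, hbot⟩, ?_, rfl⟩
    rw [hW]
    apply HeightOneSpectrum.ext
    exact hPv.over.symm

theorem AddM_ext {w : Pr L} {j : K} (h0 : j ≠ 0) (h1 : j ≠ 1728) {m : ℕ} (he : ee K w ∣ m)
    (h : (fv (w.under (𝓞 K)) 2 = 1 ∧ fv (w.under (𝓞 K)) 3 = 1 ∧ fv (w.under (𝓞 K)) j ≤ 1) ∧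
      fv (w.under (𝓞 K)) (m : K) = 1 ∧ AddM m j (w.under (𝓞 K))) :
    AddJ (algebraMap K L j) w := by
  obtain ⟨⟨h2, h3, h4⟩, _, h5⟩ := h
  set v := w.under (𝓞 K) with hv
  have hf := (ff_pos (K := K) w).ne'
  have hepos := (ee_pos (K := K) w)
  have hx : ∀ x : K, fv w (algebraMap K L x) = (fv v x ^ ee K w) ^ ff K w := by
    intro x
    rw [fv_ext, ldeg_eq, pow_mul]
  have e2 : (2 : L) = algebraMap K L 2 := (map_ofNat (algebraMap K L) 2).symm
  have e3 : (3 : L) = algebraMap K L 3 := (map_ofNat (algebraMap K L) 3).symm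
  have e1728 : algebraMap K L j - 1728 = algebraMap K L (j - 1728) := by
    rw [map_sub]
    congr 1
    exact (map_ofNat (algebraMap K L) 1728).symm
  have hpow : ∀ (x : K) (k : ℤ), fv w (algebraMap K L x) = Nv w ^ k →
      fv v x ^ ee K w = Nv v ^ k := by
    intro x k h
    rw [hx, Nv_ext (K := K)] at h
    have h6 : (Nv (w.under (𝓞 K)) ^ ff K w) ^ k = (Nv (w.under (𝓞 K)) ^ k) ^ ff K w := by
      rw [← zpow_natCast, ← zpow_natCast, ← zpow_mul, ← zpow_mul, mul_comm]
    rw [h6] at h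
    exact (pow_left_inj₀ (pow_nonneg ((fv _).nonneg _) _) (zpow_nonneg (Nv_pos _).le _) hf).1 h
  -- the divisibility
  have key : ∀ (q : ℕ) (x : K), x ≠ 0 → q.Prime → ¬ q ∣ m →
      (∀ k : ℤ, fv v x ≠ Nv v ^ ((q : ℤ) * k)) →
      ∀ k : ℤ, fv w (algebraMap K L x) ≠ Nv w ^ ((q : ℤ) * k) := by
    intro q x hx0 hq hqm hk k hcon
    have h6 := hpow x _ hcon
    obtain ⟨a, ha⟩ := fv_zpow (K := K) v hx0
    rw [ha, ← zpow_natCast, ← zpow_mul] at h6
    have h7 : a * (ee K w : ℤ) = (q : ℤ) * k :=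
      zpow_right_injective₀ (Nv_pos v) (Nv_one_lt v).ne' h6
    have h8 : (q : ℤ) ∣ a * (ee K w : ℤ) := ⟨k, h7⟩
    have hqi : Prime (q : ℤ) := Nat.prime_iff_prime_int.1 hq
    rcases hqi.dvd_or_dvd h8 with h9 | h9
    · obtain ⟨b, hb⟩ := h9
      exact hk b (by rw [ha, hb])
    · exact hqm ((Int.natCast_dvd_natCast.1 h9).trans he)
  refine ⟨?_, ?_, ?_, ?_⟩
  · rw [e2, hx, h2, one_pow, one_pow]
  · rw [e3, hx, h3, one_pow, one_pow]
  · rw [hx]
    exact pow_le_one₀ (pow_nonneg ((fv _).nonneg _) _) (pow_le_one₀ ((fv _).nonneg _) h4)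
  · rcases h5 with h5 | h5
    · left
      exact key 3 j h0 Nat.prime_three h5.1 h5.2
    · right
      rw [e1728]
      exact key 2 (j - 1728) (sub_ne_zero.2 h1) Nat.prime_two h5.1 h5.2

/-- **The truncated counting functions in an extension.** -/
theorem fm_ext {j : K} (h0 : j ≠ 0) (h1 : j ≠ 1728) {m : ℕ} (hm : 0 < m) {R : Finset (Pr K)}
    (hT : Tm m R L) :
    Module.finrank K L * (fm m j - ∑ v ∈ R, Real.log (Nv v)) ≤
      m * (fa (algebraMap K L j) + fu (algebraMap K L j)) := by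
  classical
  have h0' : algebraMap K L j ≠ 0 := by rwa [Ne, FaithfulSMul.algebraMap_eq_zero_iff]
  have h1' : algebraMap K L j ≠ 1728 := by
    intro h
    apply h1
    apply (algebraMap K L).injective
    rw [h]
    exact (map_ofNat (algebraMap K L) 1728).symm
  set S := (am m j ∪ um m j) \ R with hS
  set T := wa (algebraMap K L j) ∪ wu (algebraMap K L j) with hTd
  set W := T.filter fun w => w.under (𝓞 K) ∈ S with hW
  have hS1 : ∀ v ∈ S, fv v (m : K) = 1 := by
    intro v hv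
    rcases Finset.mem_union.1 (Finset.mem_sdiff.1 hv).1 with h2 | h2
    · exact (mem_am.1 h2).2
    · exact ((mem_um h0 h1).1 h2).2.1
  have hS2 : ∀ v ∈ S, v ∉ R := fun v hv => (Finset.mem_sdiff.1 hv).2
  have hST : ∀ w : Pr L, w.under (𝓞 K) ∈ S → w ∈ T := by
    intro w hw
    rcases Finset.mem_union.1 (Finset.mem_sdiff.1 hw).1 with h2 | h2
    · apply Finset.mem_union_left
      rw [mem_wa_ext, mem_wa]
      exact (mem_am.1 h2).1
    · apply Finset.mem_union_right
      rw [mem_wu h0' h1']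
      have h3 := (mem_um h0 h1).1 h2
      exact AddM_ext h0 h1 (ee_dvd hT w h3.2.1 (hS2 _ hw)) h3
  have b1 : ∑ w ∈ W, Real.log (Nv w) ≤ fa (algebraMap K L j) + fu (algebraMap K L j) := by
    have e : fa (algebraMap K L j) + fu (algebraMap K L j) = ∑ w ∈ T, Real.log (Nv w) :=
      (Finset.sum_union (wa_wu _)).symm
    rw [e]
    exact Finset.sum_le_sum_of_subset_of_nonneg (Finset.filter_subset _ _)
      fun w _ _ => (log_Nv_pos w).le
  have b2 : ∑ w ∈ W, (ldeg K (FinitePlace.mk w) : ℝ) * Real.log (Nv (w.under (𝓞 K))) ≤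
      m * ∑ w ∈ W, Real.log (Nv w) := by
    rw [Finset.mul_sum]
    refine Finset.sum_le_sum fun w hw => ?_
    have h2 := (Finset.mem_filter.1 hw).2
    have h3 := Nat.le_of_dvd hm (ee_dvd hT w (hS1 _ h2) (hS2 _ h2))
    rw [Nv_ext (K := K) w, Real.log_pow, ldeg_eq]
    have h4 : 0 ≤ (ff K w : ℝ) * Real.log (Nv (w.under (𝓞 K))) :=
      mul_nonneg (Nat.cast_nonneg _) (log_Nv_pos _).le
    have h5 : (ee K w : ℝ) ≤ m := by exact_mod_cast h3
    push_cast
    calc (ee K w : ℝ) * (ff K w : ℝ) * Real.log (Nv (w.under (𝓞 K)))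
        = (ee K w : ℝ) * ((ff K w : ℝ) * Real.log (Nv (w.under (𝓞 K)))) := by ring
      _ ≤ m * ((ff K w : ℝ) * Real.log (Nv (w.under (𝓞 K)))) :=
          mul_le_mul_of_nonneg_right h5 h4
  have b3 : ∑ w ∈ W, (ldeg K (FinitePlace.mk w) : ℝ) * Real.log (Nv (w.under (𝓞 K))) =
      Module.finrank K L * ∑ v ∈ S, Real.log (Nv v) := by
    rw [← Finset.sum_fiberwise_of_maps_to (g := fun w : Pr L => w.under (𝓞 K)) (t := S)
      (fun w hw => (Finset.mem_filter.1 hw).2), Finset.mul_sum]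
    refine Finset.sum_congr rfl fun v hv => ?_
    have h3 := sum_ldeg_full (L := L) v (W.filter fun w => w.under (𝓞 K) = v) (by
      intro w
      rw [Finset.mem_filter]
      constructor
      · exact fun h => h.2
      · intro h
        refine ⟨?_, h⟩
        rw [hW, Finset.mem_filter]
        have h4 : w.under (𝓞 K) ∈ S := by rw [h]; exact hv
        exact ⟨hST w h4, h4⟩)
    rw [← h3]
    push_cast
    rw [Finset.sum_mul]
    refine Finset.sum_congr rfl fun w hw => ?_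
    rw [(Finset.mem_filter.1 hw).2]
  have b4 : fm m j ≤ ∑ v ∈ S, Real.log (Nv v) + ∑ v ∈ R, Real.log (Nv v) := by
    rw [fm_eq, ← Finset.sum_union (Finset.sdiff_disjoint), Finset.sdiff_union_self_eq_union]
    exact Finset.sum_le_sum_of_subset_of_nonneg Finset.subset_union_left
      fun w _ _ => (log_Nv_pos w).le
  have hd : (0 : ℝ) ≤ Module.finrank K L := Nat.cast_nonneg _
  calc Module.finrank K L * (fm m j - ∑ v ∈ R, Real.log (Nv v))
      ≤ Module.finrank K L * ∑ v ∈ S, Real.log (Nv v) :=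
        mul_le_mul_of_nonneg_left (by linarith) hd
    _ ≤ m * ∑ w ∈ W, Real.log (Nv w) := by rw [← b3]; exact b2
    _ ≤ _ := mul_le_mul_of_nonneg_left b1 (Nat.cast_nonneg _)

/-- **The theorem for an invariant in `K` and the curves over an extension `L`.** -/
theorem LTM_ext [DecidableEq L] {j : K} (h0 : j ≠ 0) (h1 : j ≠ 1728) {m : ℕ} (hm : 0 < m)
    {θ κ : ℝ} (hθ : 0 < θ) (hθ1 : θ ≤ 1) (hf : (θ + κ) * ht j ≤ fm m j)
    (hht : Module.finrank ℚ K * c8 ≤ (θ / m) ^ 2 / 144 * ht j) {R : Finset (Pr K)}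
    (hR : ∑ v ∈ R, Real.log (Nv v) ≤ κ * ht j) (hT : Tm m R L) :
    Pool.Agent.Q237.LS.LT ((θ / m) ^ 6 / 290000) (28 / (θ / m) ^ 2) (algebraMap K L j) := by
  have hd : (0 : ℝ) < Module.finrank K L := by exact_mod_cast Module.finrank_pos
  have hm0 : (0 : ℝ) < m := by exact_mod_cast hm
  have hm1 : (1 : ℝ) ≤ m := by exact_mod_cast hm
  have e1 := ht_ext (L := L) j
  have e3 := fm_ext (L := L) h0 h1 hm hT
  refine LTU_of ?_ ?_ (by positivity) ?_ ?_ ?_
  · rwa [Ne, FaithfulSMul.algebraMap_eq_zero_iff]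
  · intro h
    apply h1
    apply (algebraMap K L).injective
    rw [h]
    exact (map_ofNat (algebraMap K L) 1728).symm
  · rw [div_le_one hm0]
    linarith
  · rw [e1]
    have h5 : Module.finrank K L * (θ * ht j) ≤
        Module.finrank K L * (fm m j - ∑ v ∈ R, Real.log (Nv v)) :=
      mul_le_mul_of_nonneg_left (by linarith) hd.le
    have h6 := h5.trans e3
    rw [div_mul_eq_mul_div, div_le_iff₀ hm0]
    linarith
  · rw [e1, finrank_mul (K := K)]
    have h5 := mul_le_mul_of_nonneg_left hht hd.le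
    linarith

end Ext

section Count

variable {K : Type} [Field K] [NumberField K]

/-- the poles above `m` -/
theorem fa_le_am {m : ℕ} (hm : m ≠ 0) (j : K) :
    fa j ≤ ∑ v ∈ am m j, Real.log (Nv v) + Module.finrank ℚ K * Real.log m := by
  classical
  have h1 := sum_dvd (K := K) hm ((wa j).filter fun v => ¬ fv v (m : K) = 1)
    (fun v hv => (Finset.mem_filter.1 hv).2)
  unfold fa am
  rw [← Finset.sum_filter_add_sum_filter_not (wa j) (fun v => fv v (m : K) = 1)]
  have e : ((wa j).filter fun v => fv v (m : K) = 1).sum (fun v => Real.log (Nv v)) =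
    (@Finset.filter _ (fun v => fv v (m : K) = 1) (fun v => Classical.propDecidable _)
      (wa j)).sum (fun v => Real.log (Nv v)) := by congr 1
  linarith

/-- the radical of the numerator -/
theorem rl_zero_le_m {m : ℕ} (hm : m ≠ 0) (h3m : ¬ 3 ∣ m) {j : K} (h0 : j ≠ 0) (h1 : j ≠ 1728)
    {P : Fin 3 → Idl K} (hP : IsP ∅ j P) :
    rl (P 0) ≤ len (P 0) / 3 + 2 / 3 * ∑ v ∈ um m j, Real.log (Nv v) +
      Module.finrank ℚ K * Real.log (6 * m : ℕ) := by
  classical
  have hval : ∀ v, fv v j = max (fv v j) 1 * (Nv v) ^ (-(P 0 v : ℤ)) := by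
    intro v
    have h1 := hP.val 0 v (by simp)
    rwa [L_zero] at h1
  -- places in the support
  have hsup : ∀ v, P 0 v ≠ 0 → fv v j = Nv v ^ (-(P 0 v : ℤ)) ∧ fv v j < 1 := by
    intro v hv
    have h2 := hval v
    have hN := Nv_one_lt v
    have h3 : (Nv v) ^ (-(P 0 v : ℤ)) < 1 := by
      apply zpow_lt_one_of_neg₀ hN
      have : 0 < P 0 v := Nat.pos_of_ne_zero hv
      omega
    have h4 : 0 < (Nv v) ^ (-(P 0 v : ℤ)) := zpow_pos (Nv_pos v) _
    rcases le_or_gt (fv v j) 1 with h5 | h5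
    · rw [max_eq_right h5, one_mul] at h2
      exact ⟨h2, by rw [h2]; exact h3⟩
    · rw [max_eq_left h5.le] at h2
      have : fv v j * (Nv v) ^ (-(P 0 v : ℤ)) < fv v j * 1 :=
        mul_lt_mul_of_pos_left h3 (by linarith)
      linarith
  set D := (P 0).support.filter fun v => fv v ((6 * m : ℕ) : K) ≠ 1 with hD
  have hDsum : ∑ v ∈ D, Real.log (Nv v) ≤ Module.finrank ℚ K * Real.log (6 * m : ℕ) := by
    have := sum_dvd (K := K) (n := 6 * m) (by omega) D (fun v hv => (Finset.mem_filter.1 hv).2)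
    exact_mod_cast this
  set E := (P 0).support.filter fun v => fv v ((6 * m : ℕ) : K) = 1 ∧ ¬ (3 ∣ P 0 v) with hE
  have hEsum : ∑ v ∈ E, Real.log (Nv v) ≤ ∑ v ∈ um m j, Real.log (Nv v) := by
    refine Finset.sum_le_sum_of_subset_of_nonneg ?_ fun w _ _ => (log_Nv_pos w).le
    intro v hv
    obtain ⟨hv1, hv2, hv3⟩ := Finset.mem_filter.1 hv
    rw [Finsupp.mem_support_iff] at hv1
    obtain ⟨h5, h6⟩ := hsup v hv1
    have hmle : fv v (m : K) ≤ 1 := (fv_Na v).nat m
    have h6le : fv v (6 : K) ≤ 1 := by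
      have := (fv_Na v).nat 6
      exact_mod_cast this
    have hprod : fv v (6 : K) * fv v (m : K) = 1 := by
      have h7 := hv2
      push_cast at h7
      rwa [map_mul] at h7
    have hv2' : fv v (6 : K) = 1 := by
      have := (fv v).nonneg (6 : K)
      have := (fv v).nonneg (m : K)
      nlinarith
    have hvm : fv v (m : K) = 1 := by
      rw [hv2', one_mul] at hprod
      exact hprod
    obtain ⟨h2, h3⟩ := mu_exact hv2'
    rw [mem_um h0 h1]
    refine ⟨⟨h2, h3, h6.le⟩, hvm, Or.inl ⟨h3m, ?_⟩⟩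
    intro k hk
    rw [h5] at hk
    have h7 : -(P 0 v : ℤ) = 3 * k :=
      zpow_right_injective₀ (Nv_pos v) (Nv_one_lt v).ne' hk
    apply hv3
    omega
  have key : rl (P 0) ≤ len (P 0) / 3 + 2 / 3 * ∑ v ∈ E, Real.log (Nv v) +
      ∑ v ∈ D, Real.log (Nv v) := by
    rw [hE, hD, Finset.sum_filter, Finset.sum_filter]
    unfold rl len
    rw [Finset.sum_div, Finset.mul_sum, ← Finset.sum_add_distrib, ← Finset.sum_add_distrib]
    refine Finset.sum_le_sum fun v hv => ?_
    have hlog := log_Nv_pos v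
    rw [Finsupp.mem_support_iff] at hv
    have h1 : (1 : ℝ) ≤ (P 0 v : ℝ) := by exact_mod_cast Nat.one_le_iff_ne_zero.2 hv
    by_cases h6 : fv v ((6 * m : ℕ) : K) = 1
    · rw [if_neg (not_not.2 h6), add_zero]
      by_cases h7 : 3 ∣ P 0 v
      · rw [if_neg (by tauto)]
        have h8 : (3 : ℝ) ≤ (P 0 v : ℝ) := by
          exact_mod_cast Nat.le_of_dvd (Nat.pos_of_ne_zero hv) h7
        nlinarith
      · rw [if_pos ⟨h6, h7⟩]
        nlinarith
    · rw [if_pos h6, if_neg (by tauto)]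
      nlinarith
  have h2 : 2 / 3 * ∑ v ∈ E, Real.log (Nv v) ≤ 2 / 3 * ∑ v ∈ um m j, Real.log (Nv v) := by
    linarith
  linarith

/-- the point attached to `j`, for which `x + 1` is the multiple `- (j - 1728) / 1728` -/
noncomputable def pt (j : K) : K := -(j / 1728)

theorem pt_inj : Function.Injective (pt : K → K) := by
  intro a b h
  unfold pt at h
  have h1 := neg_injective h
  have h2 : (1728 : K) ≠ 0 := by norm_num
  exact (div_left_inj' h2).1 h1

theorem pt_Pt {j : K} (h0 : j ≠ 0) (h1 : j ≠ 1728) : Pt (pt j) := by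
  have h2 : (1728 : K) ≠ 0 := by norm_num
  unfold pt
  refine ⟨neg_ne_zero.2 (div_ne_zero h0 h2), ?_⟩
  intro h
  apply h1
  field_simp at h
  linear_combination -h

theorem ht_pt_le (j : K) : ht (pt j) ≤ ht j + Module.finrank ℚ K * Real.log 1728 := by
  have e : Height.logHeight₁ (pt j) ≤ Height.logHeight₁ j + Height.logHeight₁ (1728 : K) := by
    unfold pt
    rw [Height.logHeight₁_neg, div_eq_mul_inv]
    refine (Height.logHeight₁_mul_le _ _).trans ?_
    rw [Height.logHeight₁_inv]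
  rw [ht_log, ht_log] at e
  refine e.trans ?_
  have h1 := Pool.Agent.Y725.LS.logHeight₁_ext (K := ℚ) (L := K) (1728 : ℚ)
  have h2 : Height.logHeight₁ (1728 : ℚ) = Real.log 1728 := by
    have := Rat.logHeight₁_natCast 1728
    exact_mod_cast this
  rw [h2, map_ofNat] at h1
  rw [h1]

theorem fv_pt {v : Pr K} (h6 : fv v (6 : K) = 1) (j : K) : fv v (pt j) = fv v j ∧
    fv v (pt j + 1) = fv v (j - 1728) := by
  obtain ⟨h2, h3⟩ := mu_exact h6
  have h1728 : fv v (1728 : K) = 1 := by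
    have : (1728 : K) = 2 ^ 6 * 3 ^ 3 := by norm_num
    rw [this, map_mul, map_pow, map_pow, h2, h3]
    norm_num
  have hne : (1728 : K) ≠ 0 := by norm_num
  constructor
  · unfold pt
    rw [map_neg_eq_map, map_div₀, h1728, div_one]
  · have e : pt j + 1 = -((j - 1728) / 1728) := by
      unfold pt
      field_simp
      ring
    rw [e, map_neg_eq_map, map_div₀, h1728, div_one]

/-- the poles of the point attached to `j` -/
theorem fa_pt_le {m : ℕ} (hm : m ≠ 0) (j : K) :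
    fa (pt j) ≤ ∑ v ∈ am m j, Real.log (Nv v) + Module.finrank ℚ K * Real.log (6 * m : ℕ) := by
  classical
  have h1 := sum_dvd (K := K) (n := 6 * m) (by omega)
    ((wa (pt j)).filter fun v => ¬ fv v ((6 * m : ℕ) : K) = 1)
    (fun v hv => (Finset.mem_filter.1 hv).2)
  unfold fa
  rw [← Finset.sum_filter_add_sum_filter_not (wa (pt j)) (fun v => fv v ((6 * m : ℕ) : K) = 1)]
  have h2 : ∑ v ∈ (wa (pt j)).filter (fun v => fv v ((6 * m : ℕ) : K) = 1), Real.log (Nv v) ≤
      ∑ v ∈ am m j, Real.log (Nv v) := by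
    refine Finset.sum_le_sum_of_subset_of_nonneg ?_ fun w _ _ => (log_Nv_pos w).le
    intro v hv
    obtain ⟨hv1, hv2⟩ := Finset.mem_filter.1 hv
    have hmle : fv v (m : K) ≤ 1 := (fv_Na v).nat m
    have h6le : fv v (6 : K) ≤ 1 := by
      have := (fv_Na v).nat 6
      exact_mod_cast this
    have hprod : fv v (6 : K) * fv v (m : K) = 1 := by
      have h7 := hv2
      push_cast at h7
      rwa [map_mul] at h7
    have hv2' : fv v (6 : K) = 1 := by
      have := (fv v).nonneg (6 : K)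
      have := (fv v).nonneg (m : K)
      nlinarith
    have hvm : fv v (m : K) = 1 := by
      rw [hv2', one_mul] at hprod
      exact hprod
    rw [mem_am]
    rw [mem_wa, (fv_pt hv2' j).1] at hv1
    exact ⟨hv1, hvm⟩
  linarith

/-- the radical of the numerator of `j - 1728` -/
theorem rl_two_le_m {m : ℕ} (hm : m ≠ 0) (h2m : ¬ 2 ∣ m) {j : K} (h0 : j ≠ 0) (h1 : j ≠ 1728)
    {P : Fin 3 → Idl K} (hP : IsP ∅ (pt j) P) :
    rl (P 2) ≤ len (P 2) / 2 + 1 / 2 * ∑ v ∈ um m j, Real.log (Nv v) +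
      Module.finrank ℚ K * Real.log (6 * m : ℕ) := by
  classical
  have hval : ∀ v, fv v (pt j + 1) = max (fv v (pt j)) 1 * (Nv v) ^ (-(P 2 v : ℤ)) := by
    intro v
    have h1 := hP.val 2 v (by simp)
    rwa [L_two] at h1
  -- places in the support
  have hsup : ∀ v, P 2 v ≠ 0 → fv v (6 : K) = 1 →
      fv v (j - 1728) = Nv v ^ (-(P 2 v : ℤ)) ∧ fv v j ≤ 1 := by
    intro v hv h6
    have h2 := hval v
    obtain ⟨e1, e2⟩ := fv_pt h6 j
    have hN := Nv_one_lt v
    have h3 : (Nv v) ^ (-(P 2 v : ℤ)) < 1 := by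
      apply zpow_lt_one_of_neg₀ hN
      have : 0 < P 2 v := Nat.pos_of_ne_zero hv
      omega
    rcases le_or_gt (fv v (pt j)) 1 with h5 | h5
    · rw [max_eq_right h5, one_mul, e2] at h2
      rw [e1] at h5
      exact ⟨h2, h5⟩
    · exfalso
      rw [max_eq_left h5.le] at h2
      have h7 : fv v (pt j + 1) = fv v (pt j) := (fv_Na v).eq (by rwa [map_one])
      rw [h7] at h2
      have : fv v (pt j) * (Nv v) ^ (-(P 2 v : ℤ)) < fv v (pt j) * 1 :=
        mul_lt_mul_of_pos_left h3 (by linarith)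
      linarith
  set D := (P 2).support.filter fun v => fv v ((6 * m : ℕ) : K) ≠ 1 with hD
  have hDsum : ∑ v ∈ D, Real.log (Nv v) ≤ Module.finrank ℚ K * Real.log (6 * m : ℕ) := by
    have := sum_dvd (K := K) (n := 6 * m) (by omega) D (fun v hv => (Finset.mem_filter.1 hv).2)
    exact_mod_cast this
  set E := (P 2).support.filter fun v => fv v ((6 * m : ℕ) : K) = 1 ∧ ¬ (2 ∣ P 2 v) with hE
  have hEsum : ∑ v ∈ E, Real.log (Nv v) ≤ ∑ v ∈ um m j, Real.log (Nv v) := by
    refine Finset.sum_le_sum_of_subset_of_nonneg ?_ fun w _ _ => (log_Nv_pos w).le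
    intro v hv
    obtain ⟨hv1, hv2, hv3⟩ := Finset.mem_filter.1 hv
    rw [Finsupp.mem_support_iff] at hv1
    have hmle : fv v (m : K) ≤ 1 := (fv_Na v).nat m
    have h6le : fv v (6 : K) ≤ 1 := by
      have := (fv_Na v).nat 6
      exact_mod_cast this
    have hprod : fv v (6 : K) * fv v (m : K) = 1 := by
      have h7 := hv2
      push_cast at h7
      rwa [map_mul] at h7
    have hv2' : fv v (6 : K) = 1 := by
      have := (fv v).nonneg (6 : K)
      have := (fv v).nonneg (m : K)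
      nlinarith
    have hvm : fv v (m : K) = 1 := by
      rw [hv2', one_mul] at hprod
      exact hprod
    obtain ⟨h5, h6⟩ := hsup v hv1 hv2'
    obtain ⟨h2, h3⟩ := mu_exact hv2'
    rw [mem_um h0 h1]
    refine ⟨⟨h2, h3, h6⟩, hvm, Or.inr ⟨h2m, ?_⟩⟩
    intro k hk
    rw [h5] at hk
    have h7 : -(P 2 v : ℤ) = 2 * k :=
      zpow_right_injective₀ (Nv_pos v) (Nv_one_lt v).ne' hk
    apply hv3
    omega
  have key : rl (P 2) ≤ len (P 2) / 2 + 1 / 2 * ∑ v ∈ E, Real.log (Nv v) +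
      ∑ v ∈ D, Real.log (Nv v) := by
    rw [hE, hD, Finset.sum_filter, Finset.sum_filter]
    unfold rl len
    rw [Finset.sum_div, Finset.mul_sum, ← Finset.sum_add_distrib, ← Finset.sum_add_distrib]
    refine Finset.sum_le_sum fun v hv => ?_
    have hlog := log_Nv_pos v
    rw [Finsupp.mem_support_iff] at hv
    have h1 : (1 : ℝ) ≤ (P 2 v : ℝ) := by exact_mod_cast Nat.one_le_iff_ne_zero.2 hv
    by_cases h6 : fv v ((6 * m : ℕ) : K) = 1
    · rw [if_neg (not_not.2 h6), add_zero]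
      by_cases h7 : 2 ∣ P 2 v
      · rw [if_neg (by tauto)]
        have h8 : (2 : ℝ) ≤ (P 2 v : ℝ) := by
          exact_mod_cast Nat.le_of_dvd (Nat.pos_of_ne_zero hv) h7
        nlinarith
      · rw [if_pos ⟨h6, h7⟩]
        nlinarith
    · rw [if_pos h6, if_neg (by tauto)]
      nlinarith
  have h2 : 1 / 2 * ∑ v ∈ E, Real.log (Nv v) ≤ 1 / 2 * ∑ v ∈ um m j, Real.log (Nv v) := by
    linarith
  linarith

/-- the exponent of the count of the exceptional invariants -/
noncomputable def expo (m : ℕ) : ℝ := if 3 ∣ m then (if 2 ∣ m then 1 else 1 / 2) else 1 / 3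

theorem expo_nonneg (m : ℕ) : 0 ≤ expo m := by
  unfold expo
  split_ifs <;> norm_num

/-- the invariants with few poles and additive places -/
theorem fm_count {m : ℕ} (hm : m ≠ 0) {ε : ℝ} (hε : 0 < ε) : ∃ A : ℝ, 0 ≤ A ∧
    ∀ (K : Type) [Field K] [NumberField K] (ρ X : ℝ) (E : Finset K), 0 ≤ ρ → 0 ≤ X →
      (∀ j ∈ E, Pt j ∧ j ≠ 1728 ∧ ht j ≤ X ∧ fm m j ≤ ρ * ht j) →
        (E.card : ℝ) ≤ Real.exp (Module.finrank ℚ K * A + (expo m + ρ + ε) * X) := by
  classical
  obtain ⟨A, hA, h⟩ := class_card hε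
  have hm1 : (1 : ℝ) ≤ m := by exact_mod_cast Nat.one_le_iff_ne_zero.2 hm
  have l2 : 0 ≤ Real.log 2 := Real.log_nonneg (by norm_num)
  have l1728 : 0 ≤ Real.log 1728 := Real.log_nonneg (by norm_num)
  have lm : 0 ≤ Real.log m := Real.log_nonneg hm1
  have l6 : 0 ≤ Real.log (6 * m : ℕ) := Real.log_nonneg (by push_cast; linarith)
  refine ⟨A + Real.log 2 + Real.log m + 2 * Real.log (6 * m : ℕ) + Real.log 1728 +
    ε * Real.log 1728, by positivity, ?_⟩
  intro K _ _ ρ X E hρ hX hE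
  set n := Module.finrank ℚ K with hn
  have hn0 : (0 : ℝ) ≤ n := Nat.cast_nonneg _
  have hP : ∀ j : K, ∃ P : Fin 3 → Idl K, Pt j → IsP ∅ j P := by
    intro j
    by_cases hj : Pt j
    · obtain ⟨P, hP⟩ := exists_isP ∅ hj
      exact ⟨P, fun _ => hP⟩
    · exact ⟨fun _ => 0, fun h => absurd h hj⟩
  choose P hP using hP
  by_cases hcase : 3 ∣ m ∧ ¬ 2 ∣ m
  · -- use the zeros of `j - 1728`
    obtain ⟨h3m, h2m⟩ := hcase
    have hexp : expo m = 1 / 2 := by
      unfold expo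
      rw [if_pos h3m, if_neg h2m]
    have h1 := h K (X + n * Real.log 1728) ((1 / 2 + ρ) * X +
      n * (Real.log 2 + 2 * Real.log (6 * m : ℕ) + Real.log 1728)) (E.image pt) P 2 1
      (by decide) ?_
    · rw [Finset.card_image_of_injective _ pt_inj] at h1
      refine h1.trans (Real.exp_le_exp.2 ?_)
      rw [hexp]
      have : 0 ≤ (n : ℝ) * Real.log m := by positivity
      nlinarith
    · intro x hx
      obtain ⟨j, hj, rfl⟩ := Finset.mem_image.1 hx
      obtain ⟨h2, h1728, h3, h4⟩ := hE j hj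
      have hPt := pt_Pt h2.1 h1728
      have hhp := ht_pt_le j
      rw [← hn] at hhp
      refine ⟨hPt, by linarith, hP _ hPt, ?_⟩
      have h5 := rl_eq_fa (hP _ hPt)
      have h6 := rl_two_le_m hm h2m h2.1 h1728 (hP _ hPt)
      have h7 := len_le hPt (hP _ hPt) 2
      have h10 := fa_pt_le hm j
      rw [cS_empty, ← hn] at h7
      rw [← hn] at h6 h10
      have h9 : ρ * ht j ≤ ρ * X := mul_le_mul_of_nonneg_left h3 hρ
      have h11 : 0 ≤ (n : ℝ) * Real.log 2 := by positivity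
      have h12 : 0 ≤ (n : ℝ) * Real.log 1728 := by positivity
      have h13 : 0 ≤ ∑ v ∈ um m j, Real.log (Nv v) :=
        Finset.sum_nonneg fun v _ => (log_Nv_pos v).le
      rw [h5]
      unfold fm at h4
      nlinarith
  have h1 := h K X ((expo m + ρ) * X + n * (Real.log 2 + Real.log m + Real.log (6 * m : ℕ)))
    E P 0 1 (by decide) ?_
  · refine h1.trans (Real.exp_le_exp.2 ?_)
    have k1 : 0 ≤ (n : ℝ) * Real.log (6 * m : ℕ) := by positivity
    have k2 : 0 ≤ (n : ℝ) * Real.log 1728 := by positivity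
    have k3 : 0 ≤ (n : ℝ) * (ε * Real.log 1728) := by positivity
    nlinarith
  · intro j hj
    obtain ⟨h2, h1728, h3, h4⟩ := hE j hj
    refine ⟨h2, h3, hP j h2, ?_⟩
    have h5 := rl_eq_fa (hP j h2)
    have h7 := len_le h2 (hP j h2) 0
    have h8 := rl_le_len (P j 0)
    have h10 := fa_le_am hm j
    rw [cS_empty, ← hn] at h7
    rw [← hn] at h10
    have h9 : ρ * ht j ≤ ρ * X := mul_le_mul_of_nonneg_left h3 hρ
    have h11 : 0 ≤ (n : ℝ) * Real.log 2 := by positivity
    have h12 : 0 ≤ (n : ℝ) * Real.log (6 * m : ℕ) := by positivity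
    have h13 : 0 ≤ ∑ v ∈ um m j, Real.log (Nv v) :=
      Finset.sum_nonneg fun v _ => (log_Nv_pos v).le
    rw [h5]
    unfold fm at h4
    unfold expo
    split_ifs with h3m h2m
    · nlinarith
    · exact absurd ⟨h3m, h2m⟩ hcase
    · have h6 := rl_zero_le_m hm h3m h2.1 h1728 (hP j h2)
      rw [← hn] at h6
      nlinarith

end Count

end Pool.Agent.H16.LA
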