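import Mathlib
import Pool.Agent.H16.LA.Bdd

/-!
# Counting the exceptional invariants
-/

set_option autoImplicit false
set_option linter.unusedSectionVars false

namespace Pool.Agent.H16.LA

open NumberField IsDedekindDomain Finset Pool.Agent.H691R3 Pool.Agent.W223.AK
open Pool.Agent.TH942 Pool.Agent.TH910.LS Pool.Agent.Y733.LS Pool.Agent.Y733.UD
open Pool.Agent.Q237.LS Pool.Agent.Q237.LT

/-- the conclusion in all extensions with bounded ramification -/
def UM (m : ℕ) (κ c B : ℝ) {K : Type} [Field K] [NumberField K] (j : K) : Prop :=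
  ∀ R : Finset (Pr K), ∑ v ∈ R, Real.log (Nv v) ≤ κ * ht j →
    ∀ (L : Type) [Field L] [NumberField L] [Algebra K L] [DecidableEq L],
      Tm m R L → Pool.Agent.Q237.LS.LT c B (algebraMap K L j)

theorem UM_of {K : Type} [Field K] [NumberField K] {j : K} (h0 : j ≠ 0) (h1 : j ≠ 1728)
    {m : ℕ} (hm : 0 < m) {θ κ : ℝ} (hθ : 0 < θ) (hθ1 : θ ≤ 1) (hf : (θ + κ) * ht j ≤ fm m j)
    (hht : Module.finrank ℚ K * (144 * c8 * m ^ 2 / θ ^ 2) ≤ ht j) :
    UM m κ ((θ / m) ^ 6 / 290000) (28 * m ^ 2 / θ ^ 2) j := by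
  intro R hR L _ _ _ _ hT
  have hm0 : (0 : ℝ) < m := by exact_mod_cast hm
  have e : 28 * (m : ℝ) ^ 2 / θ ^ 2 = 28 / (θ / m) ^ 2 := by
    field_simp
  rw [e]
  refine LTM_ext h0 h1 hm hθ hθ1 hf ?_ hR hT
  have h5 := mul_le_mul_of_nonneg_left hht (by positivity : (0 : ℝ) ≤ (θ / m) ^ 2 / 144)
  refine le_trans (le_of_eq ?_) h5
  field_simp

/-- **the exceptional invariants** -/
theorem exc_countM {m : ℕ} (hm : 0 < m) {θ κ ε : ℝ} (hθ : 0 < θ) (hθ1 : θ ≤ 1) (hκ0 : 0 ≤ κ)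
    (hε : 0 < ε) : ∃ A : ℝ, 0 ≤ A ∧
    ∀ (K : Type) [Field K] [NumberField K] (X : ℝ) (E : Finset K), 0 ≤ X →
      (∀ j ∈ E, j ≠ 0 ∧ j ≠ 1728 ∧ ht j ≤ X ∧
        ¬ UM m κ ((θ / m) ^ 6 / 290000) (28 * m ^ 2 / θ ^ 2) j) →
        (E.card : ℝ) ≤ Real.exp (Module.finrank ℚ K * A +
          (expo m + (θ + κ) + ε) * X) := by
  classical
  obtain ⟨A1, hA1, hall⟩ := all_card (ε := 1) one_pos
  obtain ⟨A2, hA2, hspc⟩ := fm_count hm.ne' hε
  set L0 : ℝ := 144 * c8 * m ^ 2 / θ ^ 2 with hL0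
  have hL00 : 0 ≤ L0 := by
    have := c8_pos
    positivity
  have hl3 : 0 ≤ Real.log 3 := Real.log_nonneg (by norm_num)
  refine ⟨Real.log 3 + A1 + 3 * L0 + A2, by positivity, ?_⟩
  intro K _ _ X E hX hE
  set n := Module.finrank ℚ K with hn
  have hn1 : (1 : ℝ) ≤ n := by exact_mod_cast Module.finrank_pos (R := ℚ) (M := K)
  have hn0 : (0 : ℝ) ≤ n := by linarith
  set E2 := E.filter fun j => j ≠ -1 ∧ ht j ≤ n * L0 with hE2
  set E3 := E.filter fun j => j ≠ -1 ∧ fm m j ≤ (θ + κ) * ht j with hE3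
  have hsub : E ⊆ (E2 ∪ E3) ∪ {-1} := by
    intro j hj
    rw [Finset.mem_union, Finset.mem_singleton, Finset.mem_union]
    by_cases h1 : j = -1
    · exact Or.inr h1
    · left
      obtain ⟨h2, h3, h4, h5⟩ := hE j hj
      by_contra hcon
      push Not at hcon
      obtain ⟨c1, c2⟩ := hcon
      rw [hE2, Finset.mem_filter] at c1
      rw [hE3, Finset.mem_filter] at c2
      push Not at c1 c2
      exact h5 (UM_of h2 h3 hm hθ hθ1 (c2 hj h1).le (c1 hj h1).le)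
  have hPt : ∀ j ∈ E, j ≠ -1 → Pt j := by
    intro j hj h1
    refine ⟨(hE j hj).1, fun h2 => h1 ?_⟩
    linear_combination h2
  have b2 : (E2.card : ℝ) ≤ Real.exp (n * (A1 + 3 * L0)) := by
    refine (hall K (n * L0) E2 ?_).trans (le_of_eq (by congr 1; ring))
    intro j hj
    rw [hE2, Finset.mem_filter] at hj
    exact ⟨hPt j hj.1 hj.2.1, hj.2.2⟩
  have b3 : (E3.card : ℝ) ≤ Real.exp (n * A2 + (expo m + (θ + κ) + ε) * X) := by
    refine hspc K (θ + κ) X E3 (by linarith) hX ?_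
    intro j hj
    rw [hE3, Finset.mem_filter] at hj
    exact ⟨hPt j hj.1 hj.2.1, (hE j hj.1).2.1, (hE j hj.1).2.2.1, hj.2.2⟩
  have hcard : (E.card : ℝ) ≤ E2.card + E3.card + 1 := by
    have h1 := Finset.card_le_card hsub
    have h2 := Finset.card_union_le (E2 ∪ E3) ({-1} : Finset K)
    have h3 := Finset.card_union_le E2 E3
    rw [Finset.card_singleton] at h2
    exact_mod_cast (by omega : E.card ≤ E2.card + E3.card + 1)
  have hexp := expo_nonneg m
  have hcoef : 0 ≤ expo m + (θ + κ) + ε := by positivity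
  set M0 : ℝ := n * (A1 + 3 * L0 + A2) + (expo m + (θ + κ) + ε) * X with hM0
  have m2 : Real.exp (n * (A1 + 3 * L0)) ≤ Real.exp M0 := by
    apply Real.exp_le_exp.2
    have h1 : 0 ≤ (expo m + (θ + κ) + ε) * X := mul_nonneg hcoef hX
    have h2 : 0 ≤ n * A2 := by positivity
    rw [hM0]
    nlinarith
  have m3 : Real.exp (n * A2 + (expo m + (θ + κ) + ε) * X) ≤ Real.exp M0 := by
    apply Real.exp_le_exp.2
    have h2 : 0 ≤ n * (A1 + 3 * L0) := by positivity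
    rw [hM0]
    nlinarith
  have m1 : 1 ≤ Real.exp M0 := by
    apply Real.one_le_exp
    have h1 : 0 ≤ (expo m + (θ + κ) + ε) * X := mul_nonneg hcoef hX
    rw [hM0]
    positivity
  have hfin : (E.card : ℝ) ≤ 3 * Real.exp M0 := by linarith
  refine hfin.trans ?_
  have h4 : (3 : ℝ) ≤ Real.exp (n * Real.log 3) := by
    calc (3 : ℝ) = Real.exp (Real.log 3) := (Real.exp_log (by norm_num)).symm
      _ ≤ Real.exp (n * Real.log 3) := Real.exp_le_exp.2 (by nlinarith)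
  calc 3 * Real.exp M0 ≤ Real.exp (n * Real.log 3) * Real.exp M0 :=
        mul_le_mul_of_nonneg_right h4 (Real.exp_pos _).le
    _ = _ := by
        rw [← Real.exp_add, hM0]
        congr 1
        ring

open Classical in
/-- the property `UM` for all classical instances -/
theorem log_countM {m : ℕ} (hm : 0 < m) {θ κ ε : ℝ} (hθ : 0 < θ) (hθ1 : θ ≤ 1) (hκ0 : 0 ≤ κ)
    (hε : 0 < ε) (R : Prp)
    (hR : ∀ (K : Type) [Field K] [NumberField K] (j : K),
      UM m κ ((θ / m) ^ 6 / 290000) (28 * m ^ 2 / θ ^ 2) j → R K j) :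
    ∃ A1 : ℝ, 0 ≤ A1 ∧ ∀ (K : Type) [Field K] [NumberField K] (B : ℝ), 1 ≤ B →
      ((ExcS R K B).ncard : ℝ) ≤ Real.exp (Module.finrank ℚ K *
        (A1 + (expo m + (θ + κ) + ε) * Real.log B)) := by
  obtain ⟨A, hA, h⟩ := exc_countM hm hθ hθ1 hκ0 hε
  refine ⟨A, hA, ?_⟩
  intro K _ _ B hB
  refine (ncard_le fun E hE => ?_).2
  refine (h K (Module.finrank ℚ K * Real.log B) E
    (mul_nonneg n_pos.le (Real.log_nonneg hB)) ?_).trans (le_of_eq (by congr 1; ring))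
  intro j hj
  obtain ⟨⟨h1, h2, h3⟩, h4⟩ := hE (Finset.mem_coe.2 hj)
  rw [ht_log] at h3
  exact ⟨h1, h2, h3, fun hcon => h4 (hR K j hcon)⟩

end Pool.Agent.H16.LA
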